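import Pool.Agent.helper39.TK.FinP

/-!
# MP_290026_an: dependence of sofic entropy on the sofic approximation, for groups with expanding finite approximations

Let `Γ` be a countable group with a normal subgroup `N`, locally embedded into finite groups `G n` with normal subgroups `K n`, compatibly with a homomorphism
`p` onto a finite group `Q` which is nontrivial on `N`, such that a finite set `S` of elements of `Γ` expands along `K n` (for `K n = ⊤`: the graphs of the left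
multiplications by the images of `S` on `G n` are expanders). Under a condition on the elements of `N` with few conjugates, `Γ × Δ` (`Δ` countable sofic) has two
sofic approximations such that for all integers `1 ≤ t ≤ r` there is a continuous action on a compact metric space whose topological sofic entropies are `log t`
and `log r`.
-/

set_option autoImplicit false

open Filter Topology

namespace Pool.Agent.Results.MP_290026_an.ExpanderGroups

open SofE

theorem result (Γ Δ Q : Type) [Group Γ] [Group Δ] [Group Q] [Countable Γ] [Countable Δ] [Finite Q]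
    (hΔ : ∃ (k : ℕ → ℕ) (π : ∀ n, Δ → Equiv.Perm (Fin (k n))), IsSofic k π)
    (N : Subgroup Γ) [N.Normal] (p : Γ →* Q) (hp : Function.Surjective p) (Q0 : Subgroup Q) (hQ0 : ∃ g ∈ N, p g ∈ Q0 ∧ p g ≠ 1)
    (G : ℕ → Type) [∀ n, Group (G n)] [∀ n, Finite (G n)] (K : ∀ n, Subgroup (G n)) [∀ n, (K n).Normal]
    (φ : ∀ n, Γ → G n) (q : ∀ n, G n →* Q)
    (hφ : ∀ a b : Γ, ∀ᶠ n in atTop, φ n (a * b) = φ n a * φ n b ∧ (a ≠ 1 → φ n a ≠ 1) ∧ (φ n a ∈ K n ↔ a ∈ N) ∧ q n (φ n a) = p a)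
    (hN : ∀ c ∈ N, c ≠ 1 → p c ∈ Q0 → ((fun g : Γ => g * c * g⁻¹) '' (N : Set Γ)).Infinite ∨
      Tendsto (fun n => ({x : G n | x ∈ K n ∧ φ n c ∈ Subgroup.zpowers x}.ncard : ℝ) / (Nat.card (K n) : ℝ)) atTop (𝓝 0))
    (S : Finset Γ) (ε : ℝ) (hε : 0 < ε)
    (hS : ∀ n, ∀ A : Set (G n), ∃ B : Set (G n), (∀ b ∈ B, ∀ k ∈ K n, b * k ∈ B) ∧
      ε * ((symmDiff A B).ncard : ℝ) ≤ ∑ s ∈ S, ({a ∈ A | φ n s * a ∉ A}.ncard : ℝ)) :
    ∃ (k : ℕ → ℕ) (π : ∀ n, Γ × Δ → Equiv.Perm (Fin (k n))) (k' : ℕ → ℕ) (π' : ∀ n, Γ × Δ → Equiv.Perm (Fin (k' n))),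
      IsSofic k π ∧ IsSofic k' π' ∧
      ∀ t r : ℕ, 1 ≤ t → t ≤ r → ∃ (X : Type) (_ : MetricSpace X) (_ : CompactSpace X) (_ : MulAction (Γ × Δ) X),
        (∀ s : Γ × Δ, Continuous (fun x : X => s • x)) ∧ ent X k π = ((Real.log t : ℝ) : EReal) ∧ ent X k' π' = ((Real.log r : ℝ) : EReal) :=
  TauE.final Γ Δ Q hΔ N p hp Q0 hQ0 G K φ q hφ hN S ε hε hS

end Pool.Agent.Results.MP_290026_an.ExpanderGroups
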