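import Pool.Agent.helper41.SE.Main
import Pool.Agent.helper41.SE.LabFree

/-!
# MP_290026_an: dependence of sofic entropy on the sofic approximation, for free-by-amenable groups

Let `Γ` be a countable group with a normal subgroup `N` which is free and not commutative, such that `Γ ⧸ N` satisfies the Følner condition, and let
`Δ` be a countable sofic group. Then `Γ × Δ` has two sofic approximations and a continuous action on a compact metric space whose topological
sofic entropies are `log 2` and a number in `[log 3, log 8]`.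
-/

set_option autoImplicit false

namespace Pool.Agent.Results.MP_290026_an.FreeByAmenable

open SofE

theorem result (Γ Δ : Type) [Group Γ] [Group Δ] [Countable Γ] [Countable Δ]
    (N : Subgroup Γ) [N.Normal] [IsFreeGroup N] (hN : ∃ x y : N, x * y ≠ y * x) (hF : Folner (Γ ⧸ N))
    (hΔ : ∃ (k : ℕ → ℕ) (π : ∀ n, Δ → Equiv.Perm (Fin (k n))), IsSofic k π) :
    ∃ (k : ℕ → ℕ) (π : ∀ n, Γ × Δ → Equiv.Perm (Fin (k n))) (k' : ℕ → ℕ) (π' : ∀ n, Γ × Δ → Equiv.Perm (Fin (k' n))),
      IsSofic k π ∧ IsSofic k' π' ∧
      ∃ (X : Type) (_ : MetricSpace X) (_ : CompactSpace X) (_ : MulAction (Γ × Δ) X),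
        (∀ s : Γ × Δ, Continuous (fun x : X => s • x)) ∧
        ent X k π = ((Real.log 2 : ℝ) : EReal) ∧
        ((Real.log 3 : ℝ) : EReal) ≤ ent X k' π' ∧ ent X k' π' ≤ ((Real.log 8 : ℝ) : EReal) := by
  classical
  obtain ⟨a, b, hab⟩ : ∃ a b : IsFreeGroup.Generators N, a ≠ b := by
    by_contra hcon
    push Not at hcon
    obtain ⟨x, y, hxy⟩ := hN
    apply hxy
    have hsub : Subsingleton (IsFreeGroup.Generators N) := ⟨hcon⟩
    have hcomm : ∀ u v : FreeGroup (IsFreeGroup.Generators N), u * v = v * u := by
      rcases isEmpty_or_nonempty (IsFreeGroup.Generators N) with h | ⟨⟨g⟩⟩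
      · intro u v
        exact Subsingleton.elim _ _
      · intro u v
        have hz : ∀ w : FreeGroup (IsFreeGroup.Generators N), w ∈ Subgroup.zpowers (FreeGroup.of g) := by
          intro w
          induction w using FreeGroup.induction_on with
          | C1 => exact one_mem _
          | of x => rw [hcon x g]; exact Subgroup.mem_zpowers _
          | inv_of x h => exact inv_mem h
          | mul x y hx hy => exact mul_mem hx hy
        obtain ⟨i, hi⟩ := hz u
        obtain ⟨j, hj⟩ := hz v
        rw [← hi, ← hj]
        simp only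
        rw [← zpow_add, ← zpow_add, add_comm]
    have h := hcomm (IsFreeGroup.toFreeGroup N x) (IsFreeGroup.toFreeGroup N y)
    rw [← map_mul, ← map_mul] at h
    exact (IsFreeGroup.toFreeGroup N).injective h
  obtain ⟨p, hp, pa, hLab⟩ := hasLab_free N (IsFreeGroup.toFreeGroup N).symm hab hF
  exact SofE.main N p hp (SetLike.coe_mem _) (SetLike.coe_mem _) pa hLab hΔ

end Pool.Agent.Results.MP_290026_an.FreeByAmenable
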