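import Pool.Agent.helper41.SE.Main
import Pool.Agent.helper41.SE.LabCoprod

/-!
# MP_290026_an: dependence of sofic entropy on the sofic approximation, for free products

Let `G`, `H`, `Δ` be countable sofic groups, `G` and `H` nontrivial and not both of order two. Then `(G * H) × Δ` has two sofic approximations and a
continuous action on a compact metric space whose topological sofic entropies are `log 2` and a number in `[log 3, log 8]`.
-/

set_option autoImplicit false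

namespace Pool.Agent.Results.MP_290026_an.FreeProduct

open SofE

theorem result (G H Δ : Type) [Group G] [Group H] [Group Δ] [Countable G] [Countable H] [Countable Δ] [Nontrivial G] [Nontrivial H]
    (h2 : ¬ (Nat.card G = 2 ∧ Nat.card H = 2))
    (hG : ∃ (k : ℕ → ℕ) (π : ∀ n, G → Equiv.Perm (Fin (k n))), IsSofic k π)
    (hH : ∃ (k : ℕ → ℕ) (π : ∀ n, H → Equiv.Perm (Fin (k n))), IsSofic k π)
    (hΔ : ∃ (k : ℕ → ℕ) (π : ∀ n, Δ → Equiv.Perm (Fin (k n))), IsSofic k π) :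
    ∃ (k : ℕ → ℕ) (π : ∀ n, Monoid.Coprod G H × Δ → Equiv.Perm (Fin (k n))) (k' : ℕ → ℕ)
      (π' : ∀ n, Monoid.Coprod G H × Δ → Equiv.Perm (Fin (k' n))),
      IsSofic k π ∧ IsSofic k' π' ∧
      ∃ (X : Type) (_ : MetricSpace X) (_ : CompactSpace X) (_ : MulAction (Monoid.Coprod G H × Δ) X),
        (∀ s : Monoid.Coprod G H × Δ, Continuous (fun x : X => s • x)) ∧
        ent X k π = ((Real.log 2 : ℝ) : EReal) ∧
        ((Real.log 3 : ℝ) : EReal) ≤ ent X k' π' ∧ ent X k' π' ≤ ((Real.log 8 : ℝ) : EReal) := by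
  classical
  have key : ∀ (K : Type) [Group K] [Nontrivial K], Nat.card K ≠ 2 → ∃ x y : K, x ≠ 1 ∧ y ≠ 1 ∧ x ≠ y := by
    intro K _ _ hK
    obtain ⟨x, hx⟩ := exists_ne (1 : K)
    by_contra hcon
    push Not at hcon
    apply hK
    rw [Nat.card_eq_two_iff]
    refine ⟨1, x, hx.symm, ?_⟩
    ext z
    simp only [Set.mem_insert_iff, Set.mem_singleton_iff, Set.mem_univ, iff_true]
    by_cases hz : z = 1
    · exact Or.inl hz
    · exact Or.inr (hcon z x hz hx)
  obtain ⟨g0, g1, h0, h1, hg0, hg1, hh0, hh1, hne⟩ : ∃ (g0 g1 : G) (h0 h1 : H), g0 ≠ 1 ∧ g1 ≠ 1 ∧ h0 ≠ 1 ∧ h1 ≠ 1 ∧ (g0, h0) ≠ (g1, h1) := by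
    by_cases hG2 : Nat.card G = 2
    · have hH2 : Nat.card H ≠ 2 := fun h => h2 ⟨hG2, h⟩
      obtain ⟨x, y, hx, hy, hxy⟩ := key H hH2
      obtain ⟨g, hg⟩ := exists_ne (1 : G)
      exact ⟨g, g, x, y, hg, hg, hx, hy, fun h => hxy (Prod.ext_iff.1 h).2⟩
    · obtain ⟨x, y, hx, hy, hxy⟩ := key G hG2
      obtain ⟨h, hh⟩ := exists_ne (1 : H)
      exact ⟨x, y, h, h, hx, hy, hh, hh, fun h' => hxy (Prod.ext_iff.1 h').1⟩
  obtain ⟨N, p, a, b, hp, ha, hb, pa, hLab⟩ := hasLab_coprod hG hH hg0 hg1 hh0 hh1 hne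
  have hcc : Countable (Monoid.Coprod G H) := by
    have : Function.Surjective (Monoid.Coprod.mk (M := G) (N := H)) := Monoid.Coprod.mk_surjective
    exact this.countable
  exact SofE.main N p hp ha hb pa hLab hΔ

end Pool.Agent.Results.MP_290026_an.FreeProduct
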