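import Pool.Agent.helper74.WR.Main

/-!
# MP_290026_an: dependence of sofic entropy on the sofic approximation, for wreath products

Let `A` be a nontrivial countable sofic group, `L` a countable sofic group which does not satisfy the Følner condition and `Δ` a countable
sofic group. Then the group `(A ≀ L) × Δ` (restricted wreath product: `RW A L` is the subgroup of the elements of finite support of the
regular wreath product of Mathlib) has two sofic approximations such that for all integers `t, r ≥ 1` there is a continuous action on a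
compact metric space with topological sofic entropy exactly `log t` for the first one and a finite value `≥ log r` for the second one.
-/

set_option autoImplicit false

namespace Pool.Agent.Results.MP_290026_an.WreathProduct

open SofE Pool.Agent.helper74.WR

theorem result (A L Δ : Type) [Group A] [Group L] [Group Δ] [Countable A] [Countable L] [Countable Δ] [Nontrivial A]
    (hA : ∃ (k : ℕ → ℕ) (π : ∀ n, A → Equiv.Perm (Fin (k n))), IsSofic k π)
    (hL : ∃ (k : ℕ → ℕ) (π : ∀ n, L → Equiv.Perm (Fin (k n))), IsSofic k π)
    (hΔ : ∃ (k : ℕ → ℕ) (π : ∀ n, Δ → Equiv.Perm (Fin (k n))), IsSofic k π) (hF : ¬ Folner L) :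
    ∃ (k : ℕ → ℕ) (π : ∀ n, RW A L × Δ → Equiv.Perm (Fin (k n))) (k' : ℕ → ℕ) (π' : ∀ n, RW A L × Δ → Equiv.Perm (Fin (k' n))) (q : ℕ),
      IsSofic k π ∧ IsSofic k' π' ∧
      ∀ t r : ℕ, 1 ≤ t → 1 ≤ r → ∃ (X : Type) (_ : MetricSpace X) (_ : CompactSpace X) (_ : MulAction (RW A L × Δ) X),
        (∀ s : RW A L × Δ, Continuous (fun x : X => s • x)) ∧
        ent X k π = ((Real.log t : ℝ) : EReal) ∧
        ((Real.log r : ℝ) : EReal) ≤ ent X k' π' ∧ ent X k' π' ≤ ((Real.log (t + q * r) : ℝ) : EReal) :=
  wreath A L Δ hA hL hΔ hF

end Pool.Agent.Results.MP_290026_an.WreathProduct
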